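import Pool.Agent.H560R3.TC.All
import Pool.Agent.H560R3.TC.UP
import Pool.Agent.H560R3.TC.CMP
import Pool.Agent.H560R3.TC.UP0
import Pool.Agent.H560R3.TC.ARU
import Pool.Agent.H560R3.TC.BLK
import Pool.Agent.H560R3.TC.PAD
import Pool.Agent.H560R3.TC.NE
import Pool.Agent.H560R3.TC.LOW
import Pool.Agent.H560R3.TC.ARL
import Pool.Agent.H560R3.TC.CNT
import Pool.Agent.H560R3.TC.GAD

/-!
MP_91c91a_lc: the transition complexity of inverse morphism.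

For every fixed `k` the function `g_k(m)` is `O(m^2 / log m)`, so there is no fixed `k` with
`g_k(m) = Ω(m^2)`; and for every `k ≥ 2` it is at least `c m^2 / log m`, so that the order of growth
is exactly `m^2 / log m` for every fixed `k ≥ 2`.
-/

set_option autoImplicit false

namespace Pool.Agent.Results.MP_91c91a_lc.InverseMorphism

open Pool.Agent.H560R3.TC

theorem result :
    (∀ k m : ℕ, IsGreatest (vals k m) (g k m)) ∧
    (∀ k : ℕ, ∃ C : ℝ, ∀ m : ℕ, 2 ≤ m → (g k m : ℝ) ≤ C * ((m : ℝ) ^ 2 / Real.log m)) ∧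
    (∀ k : ℕ, 2 ≤ k → ∃ c : ℝ, 0 < c ∧ ∃ M : ℕ, ∀ m : ℕ, M ≤ m →
      c * ((m : ℝ) ^ 2 / Real.log m) ≤ (g k m : ℝ)) ∧
    (∀ k : ℕ, Filter.Tendsto (fun m : ℕ => (g k m : ℝ) / (m : ℝ) ^ 2) Filter.atTop (nhds 0)) :=
  main (t_UP0 t_BLK t_CMP) (t_NE t_PAD) (t_UP (t_UP0 t_BLK t_CMP) t_ARU)
    (t_LOW t_GAD t_CNT t_PAD t_ARL t_BLK t_CMP)

end Pool.Agent.Results.MP_91c91a_lc.InverseMorphism
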